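import Pool.Agent.H31R2.DH.Assemble

/-!
# The density hypothesis for zeros outside dense clusters

We prove unconditionally the density hypothesis for those zeros `ρ = β + iγ` of the Riemann zeta
function for which the disc `|s - (1 + iγ)| ≤ 1 - β + δ` contains at most `η log T` zeros.
-/

open Complex Metric MeasureTheory Set Filter Topology

namespace Pool.Agent.Results.MP_4467b5_nt.IsolatedZeros

/-- zeros of zeta with real part at least `σ` and ordinate in `(0, T]` -/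
def zeros (σ T : ℝ) : Set ℂ := {s : ℂ | riemannZeta s = 0 ∧ σ ≤ s.re ∧ 0 < s.im ∧ s.im ≤ T}

/-- the number of the elements of a set `A` of zeros of zeta, counted with multiplicity -/
noncomputable def count (A : Set ℂ) : ℕ := ∑ᶠ s ∈ A, analyticOrderNatAt riemannZeta s

/-- the zeros of zeta in the closed disc with centre `1 + iγ` and radius `1 - β + δ`, where
`ρ = β + iγ` -/
def near (δ : ℝ) (ρ : ℂ) : Set ℂ :=
  {s : ℂ | riemannZeta s = 0 ∧ ‖s - (1 + ρ.im * I)‖ ≤ 1 - ρ.re + δ}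

/-- the sets of zeros that are counted are finite -/
theorem zeros_finite (σ T : ℝ) : (zeros σ T).Finite := DH31.zeros_finite σ T

/-- the sets of zeros that are counted are finite -/
theorem near_finite (δ : ℝ) (ρ : ℂ) : (near δ ρ).Finite := by
  refine (DH31.finite_zeros_compact (isCompact_closedBall (1 + ρ.im * I) (1 - ρ.re + δ))).subset ?_
  rintro s ⟨h1, h2⟩
  refine ⟨?_, h1⟩
  rw [mem_closedBall, dist_eq_norm]
  exact h2

/-- Density hypothesis for zeros outside dense clusters. -/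
theorem result (ε δ : ℝ) (hε : 0 < ε) (hδ : 0 < δ) :
    ∃ η : ℝ, 0 < η ∧ ∃ C : ℝ, 0 < C ∧ ∃ T₀ : ℝ, ∀ T : ℝ, T₀ ≤ T → ∀ σ : ℝ, 1 / 2 ≤ σ → σ ≤ 1 →
      (count {ρ : ℂ | ρ ∈ zeros σ T ∧ (count (near δ ρ) : ℝ) ≤ η * Real.log T} : ℝ) ≤
        C * T ^ (2 * (1 - σ) + ε) := by
  classical
  set δ₀ : ℝ := min (δ / 4) (1 / 12) with hδ₀
  have hδ₀0 : 0 < δ₀ := lt_min (by positivity) (by norm_num)
  have hδ₀1 : δ₀ ≤ 1 / 12 := min_le_right _ _
  have hδ₀2 : 4 * δ₀ ≤ δ := by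
    have : δ₀ ≤ δ / 4 := min_le_left _ _
    linarith
  obtain ⟨η₁, hη₁, C₁, hC₁, T₁, h₁⟩ := DH31.count_a hδ₀0 hδ₀1 (show 0 < ε / 2 by positivity)
  obtain ⟨η, hη, T₂, h₂⟩ := DH31.backlund_zeta hδ₀0 hδ₀1 hη₁
  obtain ⟨C₃, hC₃, h₃⟩ := DH31.windows_to_count
  have ev := DH31.ev_log 1 (ε / 2) 1 (by positivity)
  obtain ⟨T₄, h₄⟩ := Filter.eventually_atTop.1 ev
  refine ⟨η, hη, C₃ + C₁ * C₃, by positivity, max (max T₁ T₂) (max T₄ 3), ?_⟩
  intro T hT σ hσ1 hσ2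
  have hT₁ : T₁ ≤ T := (le_max_left _ _).trans ((le_max_left _ _).trans hT)
  have hT₂ : T₂ ≤ T := (le_max_right _ _).trans ((le_max_left _ _).trans hT)
  have hT₄ : T₄ ≤ T := (le_max_left _ _).trans ((le_max_right _ _).trans hT)
  have hT3 : 3 ≤ T := (le_max_right _ _).trans ((le_max_right _ _).trans hT)
  have hTpos : 0 < T := by linarith
  set A : Set ℂ := {ρ : ℂ | ρ ∈ zeros σ T ∧ (count (near δ ρ) : ℝ) ≤ η * Real.log T} with hA
  have hAsub : A ⊆ DH31.zeros (1 / 2) T := by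
    rintro ρ ⟨⟨a1, a2, a3, a4⟩, -⟩
    exact ⟨a1, hσ1.trans a2, a3, a4⟩
  -- the local bound
  have hlocal : ∀ ρ ∈ A, 3 < ρ.im → ∀ z ∈ closedBall (⟨1 + δ₀, ρ.im⟩ : ℂ) (1 + δ₀ - ρ.re + δ₀),
      ‖riemannZeta z‖ ≤ T ^ η₁ := by
    rintro ρ ⟨⟨a1, a2, a3, a4⟩, a5⟩ h3
    have hre1 : ρ.re ≤ 1 := by
      by_contra hcon
      push Not at hcon
      exact riemannZeta_ne_zero_of_one_le_re hcon.le a1
    refine h₂ T hT₂ ρ.im h3.le a4 ρ.re (hσ1.trans a2) hre1 ?_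
    intro S hS
    refine le_trans ?_ a5
    have h5 : ∑ s ∈ S, analyticOrderNatAt riemannZeta s ≤ DH31.cnt (near δ ρ) := by
      refine DH31.sum_le_cnt (near_finite δ ρ) S fun z hz => ?_
      obtain ⟨h6, h7⟩ := hS z hz
      refine ⟨h7, ?_⟩
      rw [mem_closedBall, dist_eq_norm] at h6
      have h8 : z - (1 + ρ.im * I) = (z - ⟨1 + δ₀, ρ.im⟩) + (δ₀ : ℂ) := by
        apply Complex.ext
        · simp; ring
        · simp
      rw [h8]
      calc ‖(z - ⟨1 + δ₀, ρ.im⟩) + (δ₀ : ℂ)‖ ≤ ‖z - ⟨1 + δ₀, ρ.im⟩‖ + ‖(δ₀ : ℂ)‖ :=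
            norm_add_le _ _
        _ ≤ (1 + δ₀ - ρ.re + 2 * δ₀) + δ₀ := by
            rw [Complex.norm_real, Real.norm_of_nonneg hδ₀0.le]
            gcongr
        _ ≤ 1 - ρ.re + δ := by linarith
    have h9 : ((∑ s ∈ S, analyticOrderNatAt riemannZeta s : ℕ) : ℝ) ≤ (count (near δ ρ) : ℝ) := by
      exact_mod_cast h5
    rw [Nat.cast_sum] at h9
    exact h9
  -- the windows
  set P : ℕ → Prop := fun n => ∃ ρ ∈ A, 3 < ρ.im ∧ (n : ℝ) < ρ.im ∧ ρ.im ≤ n + 1 with hP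
  set S : Finset ℕ := (Finset.range (⌊T⌋₊ + 1)).filter P with hS
  have hSP : ∀ n ∈ S, P n := fun n hn => (Finset.mem_filter.1 hn).2
  choose! ρ hρA hρ3 hρn hρn1 using hSP
  have hScard : (S.card : ℝ) ≤ C₁ * T ^ (2 * (1 - σ) + ε / 2) := by
    refine h₁ T hT₁ σ hσ1 hσ2 S ρ fun n hn => ?_
    obtain ⟨⟨a1, a2, a3, a4⟩, a5⟩ := hρA n hn
    have hre1 : (ρ n).re ≤ 1 := by
      by_contra hcon
      push Not at hcon
      exact riemannZeta_ne_zero_of_one_le_re hcon.le a1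
    exact ⟨a1, (hρ3 n hn).le, a4, a2, hre1, ⟨(hρn n hn).le, hρn1 n hn⟩,
      hlocal (ρ n) (hρA n hn) (hρ3 n hn)⟩
  have hcnt := h₃ T hT3 A hAsub S (by
    intro w hw hw3
    set n : ℕ := ⌈w.im⌉₊ - 1 with hn
    have hceil : 1 ≤ ⌈w.im⌉₊ := Nat.one_le_iff_ne_zero.2 (by
      intro h; rw [Nat.ceil_eq_zero] at h; linarith)
    have hn1 : ((n : ℕ) : ℝ) + 1 = (⌈w.im⌉₊ : ℝ) := by
      rw [hn]
      have : ((⌈w.im⌉₊ - 1 : ℕ) : ℝ) = (⌈w.im⌉₊ : ℝ) - 1 := by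
        push_cast [Nat.cast_sub hceil]; ring
      rw [this]; ring
    have h10 : (n : ℝ) < w.im := by
      have := Nat.ceil_lt_add_one (show 0 ≤ w.im by linarith)
      linarith
    have h11 : w.im ≤ n + 1 := by rw [hn1]; exact Nat.le_ceil _
    refine ⟨n, ?_, h10, h11⟩
    rw [hS, Finset.mem_filter, Finset.mem_range]
    refine ⟨?_, w, hw, hw3, h10, h11⟩
    have h12 : (n : ℝ) ≤ T := h10.le.trans hw.1.2.2.2
    have := Nat.le_floor h12
    omega)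
  have hlog : Real.log T ≤ T ^ (ε / 2) := by
    have := h₄ T hT₄
    simpa using this
  have hlog0 : 0 ≤ Real.log T := Real.log_nonneg (by linarith)
  have hone : 1 ≤ T ^ (2 * (1 - σ) + ε) := Real.one_le_rpow (by linarith) (by linarith)
  calc (count A : ℝ) ≤ C₃ + (S.card : ℝ) * (C₃ * Real.log T) := hcnt
    _ ≤ C₃ * T ^ (2 * (1 - σ) + ε) +
        (C₁ * T ^ (2 * (1 - σ) + ε / 2)) * (C₃ * T ^ (ε / 2)) := by
        have : C₃ ≤ C₃ * T ^ (2 * (1 - σ) + ε) := le_mul_of_one_le_right hC₃.le hone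
        gcongr
    _ = C₃ * T ^ (2 * (1 - σ) + ε) +
        C₁ * C₃ * (T ^ (2 * (1 - σ) + ε / 2) * T ^ (ε / 2)) := by ring
    _ = (C₃ + C₁ * C₃) * T ^ (2 * (1 - σ) + ε) := by
        rw [← Real.rpow_add hTpos]
        have : 2 * (1 - σ) + ε / 2 + ε / 2 = 2 * (1 - σ) + ε := by ring
        rw [this]; ring

end Pool.Agent.Results.MP_4467b5_nt.IsolatedZeros
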