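import Pool.Agent.H31R2.DH.Sums
import Pool.Agent.H31R2.DH.LVC

/-!
# The density hypothesis and the large values of zeta

We prove that the density hypothesis holds if and only if, for every `ε > 0`, uniformly for
`1 / 2 ≤ σ ≤ 1`, the set of the `t ∈ [1, T]` with `|ζ(σ + it)| > T ^ ε` has measure
`O(T ^ (2 (1 - σ) + ε))`, and also if and only if the part of the fourth moment of zeta that comes
from this set is `O(T ^ (2 (1 - σ) + ε))`.  The same is shown for general density exponents.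
-/

open Complex Metric MeasureTheory Set Filter Topology

namespace Pool.Agent.Results.MP_4467b5_nt.LargeValues

/-- zeros of zeta with real part at least `σ` and ordinate in `(0, T]` -/
def zeros (σ T : ℝ) : Set ℂ := {s : ℂ | riemannZeta s = 0 ∧ σ ≤ s.re ∧ 0 < s.im ∧ s.im ≤ T}

/-- the number of the elements of a set `A` of zeros of zeta, counted with multiplicity -/
noncomputable def count (A : Set ℂ) : ℕ := ∑ᶠ s ∈ A, analyticOrderNatAt riemannZeta s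

/-- the sets of zeros that are counted are finite -/
theorem zeros_finite (σ T : ℝ) : (zeros σ T).Finite := DH31.zeros_finite σ T

/-- zero density estimate with exponent `a`:
`N(σ, T) ≤ C T ^ (a(σ) + ε)` for `T ≥ T₀` and `1 / 2 ≤ σ ≤ 1`, where `C`, `T₀` depend on `ε` -/
def ZeroDensity (a : ℝ → ℝ) : Prop :=
  ∀ ε : ℝ, 0 < ε → ∃ C : ℝ, 0 < C ∧ ∃ T₀ : ℝ, ∀ T : ℝ, T₀ ≤ T → ∀ σ : ℝ, 1 / 2 ≤ σ → σ ≤ 1 →
    (count (zeros σ T) : ℝ) ≤ C * T ^ (a σ + ε)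

/-- the measure of the set of `t ∈ [1, T]` with `|ζ(σ + it)| > T ^ ε` is at most
`C T ^ (a(σ) + ε)` -/
def LargeZeta (a : ℝ → ℝ) : Prop :=
  ∀ ε : ℝ, 0 < ε → ∃ C : ℝ, 0 < C ∧ ∃ T₀ : ℝ, ∀ T : ℝ, T₀ ≤ T → ∀ σ : ℝ, 1 / 2 ≤ σ → σ ≤ 1 →
    volume {t : ℝ | 1 ≤ t ∧ t ≤ T ∧ T ^ ε < ‖riemannZeta (σ + t * I)‖} ≤
      ENNReal.ofReal (C * T ^ (a σ + ε))

/-- the measure of the set of `t ∈ [1, T]` with `|∑ n ≤ T ^ 2, n ^ (-σ - it)| > T ^ ε` is at most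
`C T ^ (a(σ) + ε)` -/
def LargeSums (a : ℝ → ℝ) : Prop :=
  ∀ ε : ℝ, 0 < ε → ∃ C : ℝ, 0 < C ∧ ∃ T₀ : ℝ, ∀ T : ℝ, T₀ ≤ T → ∀ σ : ℝ, 1 / 2 ≤ σ → σ ≤ 1 →
    volume {t : ℝ | 1 ≤ t ∧ t ≤ T ∧
        T ^ ε < ‖∑ n ∈ Finset.Icc 1 ⌊T ^ 2⌋₊, (n : ℂ) ^ (-((σ : ℂ) + t * I))‖} ≤
      ENNReal.ofReal (C * T ^ (a σ + ε))

/-- for every `V ≥ T ^ ε`, the measure of the set of `t ∈ [1, T]` with `|ζ(x + it)| > V` for some
`x ≥ σ` is at most `C T ^ (a(σ) + ε) / V ^ 4` -/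
def StrongLargeValues (a : ℝ → ℝ) : Prop :=
  ∀ ε : ℝ, 0 < ε → ∃ C : ℝ, 0 < C ∧ ∃ T₀ : ℝ, ∀ T : ℝ, T₀ ≤ T → ∀ σ : ℝ, 1 / 2 ≤ σ → σ ≤ 1 →
    ∀ V : ℝ, T ^ ε ≤ V →
      volume {t : ℝ | 1 ≤ t ∧ t ≤ T ∧ ∃ x : ℝ, σ ≤ x ∧ V < ‖riemannZeta (x + t * I)‖} ≤
        ENNReal.ofReal (C * T ^ (a σ + ε) / V ^ 4)

/-- the integral of `|ζ(σ + it)| ^ 4` over the set of `t ∈ [1, T]` with `|ζ(σ + it)| > T ^ ε` is at
most `C T ^ (a(σ) + ε)` -/
def TailFourthMoment (a : ℝ → ℝ) : Prop :=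
  ∀ ε : ℝ, 0 < ε → ∃ C : ℝ, 0 < C ∧ ∃ T₀ : ℝ, ∀ T : ℝ, T₀ ≤ T → ∀ σ : ℝ, 1 / 2 ≤ σ → σ ≤ 1 →
    ∫⁻ t in {t : ℝ | 1 ≤ t ∧ t ≤ T ∧ T ^ ε < ‖riemannZeta (σ + t * I)‖},
        ENNReal.ofReal (‖riemannZeta (σ + t * I)‖ ^ 4) ≤
      ENNReal.ofReal (C * T ^ (a σ + ε))

lemma strong_of_zeros {a : ℝ → ℝ} (hac : ContinuousOn a (Icc (1 / 2) 1)) (ha1 : 0 ≤ a 1)
    (hsl : AntitoneOn (fun σ => a σ + 2 * σ) (Icc (1 / 2) 1)) (h : ZeroDensity a) :
    StrongLargeValues a := DH31.strong hac ha1 hsl h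

lemma tail_of_strong {a : ℝ → ℝ} (h : StrongLargeValues a) : TailFourthMoment a :=
  DH31.tail_of_strong h

lemma large_of_tail {a : ℝ → ℝ} (h : TailFourthMoment a) : LargeZeta a :=
  DH31.large_of_tail h

lemma sums_of_large {a : ℝ → ℝ} (hlow : ∀ σ ∈ Icc (1 / 2 : ℝ) 1, 2 * (1 - σ) ≤ a σ)
    (h : LargeZeta a) : LargeSums a := DH31.sums_of_large hlow h

lemma large_of_sums {a : ℝ → ℝ} (hlow : ∀ σ ∈ Icc (1 / 2 : ℝ) 1, 2 * (1 - σ) ≤ a σ)
    (h : LargeSums a) : LargeZeta a := DH31.large_of_sums hlow h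

lemma zeros_of_large {a : ℝ → ℝ} (hac : ContinuousOn a (Icc (1 / 2) 1))
    (hanti : AntitoneOn a (Icc (1 / 2) 1))
    (hlow : ∀ σ ∈ Icc (1 / 2 : ℝ) 1, 2 * (1 - σ) ≤ a σ) (h : LargeZeta a) : ZeroDensity a :=
  DH31.backward hac hanti hlow (DH31.big_of_bigV hlow h)

lemma large_of_zeros {a : ℝ → ℝ} (hac : ContinuousOn a (Icc (1 / 2) 1))
    (hlow : ∀ σ ∈ Icc (1 / 2 : ℝ) 1, 2 * (1 - σ) ≤ a σ) (h : ZeroDensity a) : LargeZeta a := by
  intro ε hε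
  obtain ⟨C, hC, T₀, h₁⟩ := DH31.forward hac hlow h ε hε
  refine ⟨C, hC, T₀, fun T hT σ h1 h2 => (measure_mono ?_).trans (h₁ T hT σ h1 h2)⟩
  rintro t ⟨h3, h4, h5⟩
  exact ⟨by linarith, h4, σ, le_rfl, h5⟩

/-- Zero density estimates and large values of zeta: for every continuous nonincreasing exponent
`a` with `a(σ) ≥ 2 (1 - σ)`, the zero density estimate with exponent `a` is equivalent to the bound
with exponent `a` for the large values of zeta (or of its partial sums of length `T ^ 2`), and if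
`a(σ) + 2 σ` is nonincreasing, as for `a(σ) = 2 (1 - σ)`, also to the bounds of fourth moment
strength. -/
theorem result (a : ℝ → ℝ) (hac : ContinuousOn a (Icc (1 / 2) 1))
    (hanti : AntitoneOn a (Icc (1 / 2) 1))
    (hlow : ∀ σ ∈ Icc (1 / 2 : ℝ) 1, 2 * (1 - σ) ≤ a σ) :
    [ZeroDensity a, LargeZeta a, LargeSums a].TFAE ∧
      (AntitoneOn (fun σ => a σ + 2 * σ) (Icc (1 / 2) 1) →
        [ZeroDensity a, LargeZeta a, LargeSums a, StrongLargeValues a,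
          TailFourthMoment a].TFAE) := by
  constructor
  · tfae_have 1 → 2 := large_of_zeros hac hlow
    tfae_have 2 → 3 := sums_of_large hlow
    tfae_have 3 → 2 := large_of_sums hlow
    tfae_have 2 → 1 := zeros_of_large hac hanti hlow
    tfae_finish
  · intro hsl
    have ha1 : 0 ≤ a 1 := by
      have := hlow 1 (by constructor <;> norm_num)
      linarith
    tfae_have 1 → 4 := strong_of_zeros hac ha1 hsl
    tfae_have 4 → 5 := tail_of_strong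
    tfae_have 5 → 2 := large_of_tail
    tfae_have 2 → 3 := sums_of_large hlow
    tfae_have 3 → 2 := large_of_sums hlow
    tfae_have 2 → 1 := zeros_of_large hac hanti hlow
    tfae_finish

/-- The special case of the density hypothesis. -/
theorem density_hypothesis :
    [ZeroDensity (fun σ => 2 * (1 - σ)), LargeZeta (fun σ => 2 * (1 - σ)),
      LargeSums (fun σ => 2 * (1 - σ)), StrongLargeValues (fun σ => 2 * (1 - σ)),
      TailFourthMoment (fun σ => 2 * (1 - σ))].TFAE := by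
  refine (result _ ?_ ?_ ?_).2 ?_
  · exact Continuous.continuousOn (by fun_prop)
  · intro x _ y _ hxy
    simp only
    linarith
  · intro σ _
    exact le_rfl
  · intro x _ y _ _
    simp only
    linarith

end Pool.Agent.Results.MP_4467b5_nt.LargeValues
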